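import Pool.Agent.helper58.DC.Spec3

/-!
# Project dq (MP_baa4d7_al), module TF: finiteness and orders of the iterated wreath products
-/

set_option autoImplicit false

namespace Pool.Agent.helper73.DC

open Pool.Agent.helper58.DC

/-- a wreath product as a product -/
def TF_equiv (A Q T : Type) : WrQ A Q T ≃ Q × (T → A) where
  toFun x := (x.σ, x.a)
  invFun y := ⟨y.1, y.2⟩
  left_inv _ := rfl
  right_inv _ := rfl

theorem TF_succ (q k : ℕ) : W q (k + 1) = WrQ (W q k) (Cq q) (Cq q) := rfl

theorem TF_zero (q : ℕ) : W q 0 = Unit := rfl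

theorem TF_Tsucc (q k : ℕ) : TT q (k + 1) = (Cq q × TT q k) := rfl

theorem TF_card (q k : ℕ) (hq : q.Prime) [Finite (W q k)] :
    Nat.card (W q (k + 1)) = q * Nat.card (W q k) ^ q := by
  have : NeZero q := ⟨hq.ne_zero⟩
  have hc : Nat.card (Cq q) = q := by
    rw [show Nat.card (Cq q) = Nat.card (ZMod q) from rfl, Nat.card_zmod]
  have hf : Finite (Cq q) := inferInstanceAs (Finite (ZMod q))
  rw [TF_succ, Nat.card_congr (TF_equiv (W q k) (Cq q) (Cq q)), Nat.card_prod, Nat.card_fun, hc]

theorem TF : TF_stmt := by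
  intro q k hq
  have : NeZero q := ⟨hq.ne_zero⟩
  have hfq : Finite (Cq q) := inferInstanceAs (Finite (ZMod q))
  have key : ∀ k, Finite (TT q k) ∧ Nonempty (TT q k) ∧ Finite (W q k) := by
    intro k
    induction k with
    | zero => exact ⟨inferInstanceAs (Finite Unit), inferInstanceAs (Nonempty Unit),
        inferInstanceAs (Finite Unit)⟩
    | succ k ih =>
      obtain ⟨h1, h2, h3⟩ := ih
      refine ⟨?_, ?_, ?_⟩
      · rw [TF_Tsucc]
        infer_instance
      · rw [TF_Tsucc]
        infer_instance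
      · rw [TF_succ]
        exact Finite.of_equiv _ (TF_equiv (W q k) (Cq q) (Cq q)).symm
  have hpow : ∀ k, ∃ e, Nat.card (W q k) = q ^ e := by
    intro k
    induction k with
    | zero => exact ⟨0, by rw [TF_zero]; simp⟩
    | succ k ih =>
      obtain ⟨e, he⟩ := ih
      have := (key k).2.2
      refine ⟨e * q + 1, ?_⟩
      rw [TF_card q k hq, he, ← pow_mul, pow_succ']
  have h3 := (key k).2.2
  exact ⟨(key k).1, (key k).2.1, h3, TF_card q k hq, hpow k⟩

end Pool.Agent.helper73.DC
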